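import Pool.Agent.H93.ES.Targets
import Pool.Agent.H81.DE.HOE
import Pool.Agent.H81.DE.SUM

/-! (DVO) tests for the primes of one octave, with a label of the point. -/

set_option autoImplicit false

open Finset Pool.Agent.H18.MR Pool.Agent.H93.DE Pool.Agent.H6.N4D Pool.Agent.H93
  Pool.Agent.H93.ES

namespace Pool.Agent.H14.ES

theorem law_id (N : ℕ) [NeZero N] (a : ZMod N) :
    law (unif N) (fun n : ZMod N => n) a = 1 / N := by
  classical
  unfold law unif
  simp only
  congr 1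
  have : ((univ.filter (fun n : ZMod N => n ∈ (fun n : ZMod N => n) ⁻¹' {a})).card : ℝ) = 1 := by
    rw [Nat.cast_eq_one, Finset.card_eq_one]
    refine ⟨a, ?_⟩
    ext n
    simp
  rw [← this]

theorem sum_law (N : ℕ) [NeZero N] {ζ : Type} [Fintype ζ] [DecidableEq ζ] (Z : ZMod N → ζ)
    (F : ζ → ℝ) : ∑ z, law (unif N) Z z * F z = avZ (fun n => F (Z n)) := by
  have h := sum_law_comp (unif N) (fun n : ZMod N => n) Z F
  rw [← h]
  unfold avZ
  rw [Finset.sum_div]
  refine Finset.sum_congr rfl fun n _ => ?_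
  rw [law_id]
  ring

theorem mi_lab {Ω α β : Type} [Fintype α] [DecidableEq α] [Fintype β] [DecidableEq β]
    (μ : FAP Ω) (A : ℕ) [NeZero A] (W : Ω → α) (l : Ω → Fin A) (Y : Ω → β) :
    mi μ (fun ω => (W ω, l ω)) Y ≤ mi μ W Y + Real.log A := by
  have h1 := Pool.Agent.H81.DE.mi_nonneg' μ W l
  have h2 := ent_le_log_card μ l
  rw [Fintype.card_fin] at h2
  have h3 := ent_comp_le μ (fun ω => ((W ω, l ω), Y ω)) (fun z => (z.1.1, z.2))
  unfold mi at h1 ⊢
  simp only at h3
  linarith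

theorem sum_zmod (P : ℕ) [NeZero P] (G : ℕ → ℝ) :
    ∑ b : ZMod P, G b.val = ∑ r ∈ range P, G r := by
  refine Finset.sum_nbij' (fun b => b.val) (fun r => (r : ZMod P)) ?_ ?_ ?_ ?_ ?_
  · intro b _
    exact Finset.mem_range.2 (ZMod.val_lt b)
  · intro r _
    exact Finset.mem_univ _
  · intro b _
    exact ZMod.natCast_zmod_val b
  · intro r hr
    exact ZMod.val_cast_of_lt (Finset.mem_range.1 hr)
  · intro b _
    rfl

theorem log_part (m : ℕ) [NeZero (pr m)] (t : ℕ → ℕ → ℝ) :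
    Real.log (∑ b : ZMod (pr m), (1 / (pr m : ℝ)) *
      Real.exp (∑ q ∈ oct m, t q (b.val % q))) =
      ∑ q ∈ oct m, Real.log ((∑ r ∈ range q, Real.exp (t q r)) / q) := by
  have hQ : ∀ q ∈ oct m, q.Prime := fun q hq => (Finset.mem_filter.1 hq).2
  rw [← Finset.mul_sum, sum_zmod (pr m) (fun b => Real.exp (∑ q ∈ oct m, t q (b % q)))]
  have h1 : ∑ r ∈ range (pr m), Real.exp (∑ q ∈ oct m, t q (r % q)) =
      ∏ q ∈ oct m, ∑ r ∈ range q, Real.exp (t q r) := by
    rw [← Pool.Agent.H81.DE.prod_sum (oct m) (fun q r => Real.exp (t q r)) hQ]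
    refine Finset.sum_congr rfl fun r _ => ?_
    rw [Real.exp_sum]
  have h2 : (1 / (pr m : ℝ)) * ∏ q ∈ oct m, ∑ r ∈ range q, Real.exp (t q r) =
      ∏ q ∈ oct m, (∑ r ∈ range q, Real.exp (t q r)) / q := by
    rw [Finset.prod_div_distrib]
    unfold pr
    push_cast
    ring
  rw [h1, h2, Real.log_prod]
  intro q hq
  have hq0 : 0 < q := (hQ q hq).pos
  refine (div_pos (Finset.sum_pos (fun r _ => Real.exp_pos _) ?_) (by exact_mod_cast hq0)).ne'
  exact ⟨0, Finset.mem_range.2 hq0⟩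

theorem pf_DVO (hU : T_UNI) (hV : T_DVF) : T_DVO := by
  intro N R m A _ x d l t hN
  have : NeZero A := ⟨by
    rintro rfl
    exact (l 0).elim0⟩
  have hM0 : primorial (2 ^ m) ≠ 0 := (primorial_pos _).ne'
  have hP0 : pr m ≠ 0 := (Pool.Agent.H81.DE.pr_pos m).ne'
  have : NeZero (primorial (2 ^ m)) := ⟨hM0⟩
  have : NeZero (pr m) := ⟨hP0⟩
  have hPN : pr m ∣ N := by
    rw [Pool.Agent.H81.DE.prim_succ] at hN
    exact (Dvd.intro_left _ rfl).trans hN
  have hinfo : info (tup x d) (2 ^ m) (primorial (2 ^ m)) (pr m) =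
      mi (unif N) (fun n => (wd (tup x d) (2 ^ m) n, rs N (primorial (2 ^ m)) n))
        (fun n => rs N (pr m) n) := by
    unfold info
    rw [dif_neg hM0, dif_neg hP0]
  set W : ZMod N → (Fin (2 ^ m) → Fin R → Bool) × ZMod (primorial (2 ^ m)) :=
    fun n => (wd (tup x d) (2 ^ m) n, rs N (primorial (2 ^ m)) n) with hW
  set Y : ZMod N → ZMod (pr m) := fun n => rs N (pr m) n with hY
  set f : ((Fin (2 ^ m) → Fin R → Bool) × ZMod (primorial (2 ^ m))) × Fin A → ZMod (pr m) → ℝ :=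
    fun z y => ∑ q ∈ oct m, t q z.1.1 z.2 (y.val % q) with hf
  have h1 := hV (ZMod N) _ _ (unif N) (fun n => (W n, l n)) Y f
  have h2 := mi_lab (unif N) A W l Y
  rw [hinfo]
  have h3 : ∑ a, ∑ b, law (unif N) (fun ω => ((W ω, l ω), Y ω)) (a, b) * f a b =
      avZ (fun n => ∑ q ∈ oct m, t q (wd (tup x d) (2 ^ m) n) (l n) (n.val % q)) := by
    rw [← Fintype.sum_prod_type'
      (f := fun a b => law (unif N) (fun ω => ((W ω, l ω), Y ω)) (a, b) * f a b)]
    have h4 := sum_law N (fun ω => ((W ω, l ω), Y ω)) (fun z => f z.1 z.2)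
    refine h4.trans ?_
    congr 1
    funext n
    refine Finset.sum_congr rfl fun q hq => ?_
    have hqd : q ∣ pr m := Finset.dvd_prod_of_mem (fun p => p) hq
    have h5 : (Y n).val % q = n.val % q := by
      rw [hY]
      unfold rs
      rw [ZMod.val_natCast, Nat.mod_mod_of_dvd _ hqd]
    simp only [hW]
    rw [h5]
  have h6 : ∑ a, law (unif N) (fun n => (W n, l n)) a *
      Real.log (∑ b, law (unif N) Y b * Real.exp (f a b)) =
      avZ (fun n => ∑ q ∈ oct m, Real.log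
        ((∑ r ∈ range q, Real.exp (t q (wd (tup x d) (2 ^ m) n) (l n) r)) / q)) := by
    refine (sum_law N (fun n => (W n, l n))
      (fun a => Real.log (∑ b, law (unif N) Y b * Real.exp (f a b)))).trans ?_
    congr 1
    funext n
    have h7 : ∀ b, law (unif N) Y b = 1 / (pr m : ℝ) := fun b => (hU.2 N (pr m) hPN).1 b
    simp only [h7]
    exact log_part m (fun q r => t q (wd (tup x d) (2 ^ m) n) (l n) r)
  rw [h3, h6] at h1
  linarith

end Pool.Agent.H14.ES
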